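import Pool.Agent.Helper27.BE.Defs

/-!
# BE-19: faithful representations (from a space, padding, induction)
-/

set_option autoImplicit false

namespace Pool.Agent.Helper19.BE

open Pool.Agent.Helper27.BE

theorem mulVecLin_inj {p N : ℕ} {A B : Matrix (Fin N) (Fin N) (ZMod p)}
    (h : Matrix.mulVecLin A = Matrix.mulVecLin B) : A = B := by
  apply Matrix.toLin'.injective
  rw [Matrix.toLin'_apply', Matrix.toLin'_apply']
  exact h

/-- a group acting on a finite dimensional space so that only `1` acts trivially -/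
theorem faith_of_rep {p : ℕ} [Fact p.Prime] {G M : Type} [Group G] [AddCommGroup M]
    [Module (ZMod p) M] [Module.Finite (ZMod p) M] (ρ : G →* (M →ₗ[ZMod p] M))
    (h : ∀ g, ρ g = LinearMap.id → g = 1) : Faith p (Module.finrank (ZMod p) M) G := by
  let b := Module.finBasis (ZMod p) M
  let T : (M →ₗ[ZMod p] M) →* Matrix (Fin (Module.finrank (ZMod p) M))
      (Fin (Module.finrank (ZMod p) M)) (ZMod p) := (LinearMap.toMatrixAlgEquiv b : _ →* _)
  refine ⟨(T.comp ρ).toHomUnits, ?_⟩
  rw [injective_iff_map_eq_one]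
  intro g hg
  apply h
  have h1 : T (ρ g) = 1 := congrArg Units.val hg
  have h2 : T (ρ g) = T 1 := by rw [h1, map_one]
  exact (LinearMap.toMatrixAlgEquiv b).injective h2

theorem faith_pad {p N N' : ℕ} [Fact p.Prime] {G : Type} [Group G] (h : Faith p N G)
    (hN : N ≤ N') : Faith p N' G := by
  obtain ⟨φ, hφ⟩ := h
  obtain ⟨k, rfl⟩ := Nat.exists_eq_add_of_le hN
  let ρ : G →* (((Fin N → ZMod p) × (Fin k → ZMod p)) →ₗ[ZMod p]
      ((Fin N → ZMod p) × (Fin k → ZMod p))) :=
    { toFun := fun g => LinearMap.prodMap (Matrix.mulVecLin (φ g : Matrix _ _ _)) LinearMap.id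
      map_one' := by
        ext x <;> simp
      map_mul' := by
        intro g g'
        ext x <;> simp [Matrix.mulVecLin_mul] }
  have h1 : Module.finrank (ZMod p) ((Fin N → ZMod p) × (Fin k → ZMod p)) = N + k := by
    simp
  rw [← h1]
  refine faith_of_rep ρ ?_
  intro g hg
  apply hφ
  rw [map_one]
  apply Units.ext
  have h2 : Matrix.mulVecLin (φ g : Matrix (Fin N) (Fin N) (ZMod p)) = LinearMap.id := by
    refine LinearMap.ext fun v => ?_
    have h3 : ρ g (v, 0) = (v, 0) := by rw [hg]; rfl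
    exact congrArg Prod.fst h3
  have h4 : Matrix.mulVecLin (φ g : Matrix (Fin N) (Fin N) (ZMod p)) =
      Matrix.mulVecLin (1 : Matrix (Fin N) (Fin N) (ZMod p)) := by
    rw [h2, Matrix.mulVecLin_one]
  exact mulVecLin_inj h4

/-- the induced space -/
def indSpace {p N : ℕ} {P : Type} [Group P] (H : Subgroup P) (φ : H →* GL (Fin N) (ZMod p)) :
    Submodule (ZMod p) (P → Fin N → ZMod p) where
  carrier := {f | ∀ (x : P) (h : H), f (x * h) =
    Matrix.mulVec ((φ h⁻¹ : GL (Fin N) (ZMod p)) : Matrix (Fin N) (Fin N) (ZMod p)) (f x)}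
  zero_mem' := by
    intro x h
    simp
  add_mem' := by
    intro f g hf hg x h
    rw [Pi.add_apply, Pi.add_apply, hf, hg, Matrix.mulVec_add]
  smul_mem' := by
    intro c f hf x h
    rw [Pi.smul_apply, Pi.smul_apply, hf, Matrix.mulVec_smul]

/-- the action on the induced space -/
def indRep {p N : ℕ} {P : Type} [Group P] (H : Subgroup P) (φ : H →* GL (Fin N) (ZMod p)) :
    P →* (indSpace H φ →ₗ[ZMod p] indSpace H φ) where
  toFun g :=
    { toFun := fun f => ⟨fun x => f.1 (g⁻¹ * x), by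
        intro x h
        show f.1 (g⁻¹ * (x * h)) = _
        rw [← mul_assoc]
        exact f.2 (g⁻¹ * x) h⟩
      map_add' := fun f f' => rfl
      map_smul' := fun c f => rfl }
  map_one' := by
    refine LinearMap.ext fun f => Subtype.ext (funext fun x => ?_)
    show f.1 (1⁻¹ * x) = f.1 x
    rw [inv_one, one_mul]
  map_mul' g g' := by
    refine LinearMap.ext fun f => Subtype.ext (funext fun x => ?_)
    show f.1 ((g * g')⁻¹ * x) = f.1 (g'⁻¹ * (g⁻¹ * x))
    rw [mul_inv_rev, mul_assoc]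

open Classical in
/-- the function supported on `H` with value `v` at `1` -/
noncomputable def bump {p N : ℕ} {P : Type} [Group P] (H : Subgroup P)
    (φ : H →* GL (Fin N) (ZMod p)) (v : Fin N → ZMod p) : P → Fin N → ZMod p := fun x =>
  if hx : x ∈ H then
    Matrix.mulVec ((φ (⟨x, hx⟩ : H)⁻¹ : GL (Fin N) (ZMod p)) : Matrix (Fin N) (Fin N) (ZMod p)) v
  else 0

theorem bump_mem {p N : ℕ} {P : Type} [Group P] (H : Subgroup P)
    (φ : H →* GL (Fin N) (ZMod p)) (v : Fin N → ZMod p) : bump H φ v ∈ indSpace H φ := by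
  intro x h
  by_cases hx : x ∈ H
  · have hxh : x * h ∈ H := mul_mem hx h.2
    unfold bump
    rw [dif_pos hx, dif_pos hxh, Matrix.mulVec_mulVec]
    congr 1
    have h1 : (⟨x * h, hxh⟩ : H)⁻¹ = h⁻¹ * (⟨x, hx⟩ : H)⁻¹ := by
      rw [← mul_inv_rev]; rfl
    rw [h1, map_mul]
    rfl
  · have hxh : x * h ∉ H := fun hc => hx ((Subgroup.mul_mem_cancel_right H h.2).mp hc)
    unfold bump
    rw [dif_neg hx, dif_neg hxh, Matrix.mulVec_zero]

theorem faith_induced {p N s : ℕ} [Fact p.Prime] {P : Type} [Group P] (H : Subgroup P)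
    (hs : H.index = s) (hs0 : s ≠ 0) (hN : 1 ≤ N) (h : Faith p N H) : Faith p (s * N) P := by
  obtain ⟨φ, hφ⟩ := h
  have : H.FiniteIndex := ⟨by rw [hs]; exact hs0⟩
  have : Finite (P ⧸ H) := inferInstance
  have : Fintype (P ⧸ H) := Fintype.ofFinite _
  -- restriction to representatives
  let R : indSpace H φ →ₗ[ZMod p] (P ⧸ H → Fin N → ZMod p) :=
    { toFun := fun f c => f.1 c.out
      map_add' := fun f f' => rfl
      map_smul' := fun c f => rfl }
  have hR : Function.Injective R := by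
    rw [injective_iff_map_eq_zero]
    intro f hf
    apply Subtype.ext
    funext x
    have h1 : f.1 (((x : P ⧸ H)).out) = 0 := congrFun hf (x : P ⧸ H)
    have h2 : (((x : P ⧸ H)).out)⁻¹ * x ∈ H := by
      rw [← QuotientGroup.eq]
      exact QuotientGroup.out_eq' _
    have h3 := f.2 (((x : P ⧸ H)).out) ⟨_, h2⟩
    have h4 : (((x : P ⧸ H)).out) * ((((x : P ⧸ H)).out)⁻¹ * x) = x := by group
    simp only [h4, h1, Matrix.mulVec_zero] at h3
    exact h3
  have : Module.Finite (ZMod p) (indSpace H φ) := Module.Finite.of_injective R hR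
  have hrank : Module.finrank (ZMod p) (indSpace H φ) ≤ s * N := by
    have h1 := LinearMap.finrank_le_finrank_of_injective hR
    refine h1.trans (le_of_eq ?_)
    rw [Module.finrank_pi_fintype]
    simp only [Module.finrank_fintype_fun_eq_card, Fintype.card_fin, Finset.sum_const,
      Finset.card_univ, smul_eq_mul]
    rw [← hs, Subgroup.index, Nat.card_eq_fintype_card]
  refine faith_pad (faith_of_rep (indRep H φ) ?_) hrank
  intro g hg
  have key : ∀ v : Fin N → ZMod p, bump H φ v g⁻¹ = v := by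
    intro v
    have h1 : indRep H φ g ⟨bump H φ v, bump_mem H φ v⟩ = ⟨bump H φ v, bump_mem H φ v⟩ := by
      rw [hg]; rfl
    have h2 := congrFun (congrArg Subtype.val h1) 1
    have h3 : bump H φ v (g⁻¹ * 1) = bump H φ v 1 := h2
    rw [mul_one] at h3
    rw [h3]
    unfold bump
    rw [dif_pos (one_mem H)]
    have h4 : (⟨1, one_mem H⟩ : H)⁻¹ = 1 := by
      rw [inv_eq_one]; rfl
    rw [h4, map_one, Units.val_one, Matrix.one_mulVec]
  have hgH : g⁻¹ ∈ H := by
    by_contra hc
    have h1 := key (fun _ => 1)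
    unfold bump at h1
    rw [dif_neg hc] at h1
    have h2 := congrFun h1 ⟨0, hN⟩
    exact zero_ne_one h2
  have h5 : φ (⟨g⁻¹, hgH⟩ : H)⁻¹ = 1 := by
    apply Units.ext
    have h6 : Matrix.mulVecLin ((φ (⟨g⁻¹, hgH⟩ : H)⁻¹ : GL (Fin N) (ZMod p)) :
        Matrix (Fin N) (Fin N) (ZMod p)) = Matrix.mulVecLin (1 : Matrix (Fin N) (Fin N) (ZMod p)) := by
      refine LinearMap.ext fun v => ?_
      have h7 := key v
      unfold bump at h7
      rw [dif_pos hgH] at h7
      rw [Matrix.mulVecLin_apply, h7, Matrix.mulVecLin_one, LinearMap.id_apply]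
    exact mulVecLin_inj h6
  have h8 : (⟨g⁻¹, hgH⟩ : H)⁻¹ = 1 := by
    apply hφ
    rw [h5, map_one]
  have h9 : (⟨g⁻¹, hgH⟩ : H) = 1 := inv_eq_one.mp h8
  have h10 : g⁻¹ = 1 := congrArg Subtype.val h9
  exact inv_eq_one.mp h10

end Pool.Agent.Helper19.BE
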