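import Pool.Agent.Helper27.BE.Defs

/-!
# BE-5: the graded Lie ring of a group
-/

set_option autoImplicit false
set_option linter.unusedSectionVars false

namespace Pool.Agent.Helper19.BE

open Pool.Agent.Helper27.BE

section

variable (G : Type) [Group G]

theorem gam_antitone {i j : ℕ} (h : i ≤ j) : gam G j ≤ gam G i :=
  Subgroup.lowerCentralSeries_antitone _ (by omega)

instance gam_normal (i : ℕ) : (gam G i).Normal := by
  unfold gam
  infer_instance

theorem gam_one : gam G 1 = ⊤ := rfl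

/-- The subgroup which is factored out of `gam G i`. -/
def Nn (i : ℕ) : Subgroup (gam G i) :=
  if i = 0 then ⊤ else (gam G (i + 1)).subgroupOf (gam G i)

instance Nn_normal (i : ℕ) : (Nn G i).Normal := by
  unfold Nn
  split_ifs
  · infer_instance
  · infer_instance

theorem mem_Nn {i : ℕ} (hi : 1 ≤ i) (x : gam G i) : x ∈ Nn G i ↔ (x : G) ∈ gam G (i + 1) := by
  unfold Nn
  rw [if_neg (by omega)]
  exact Subgroup.mem_subgroupOf

theorem Nn_zero : Nn G 0 = ⊤ := by
  unfold Nn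
  rw [if_pos rfl]

/-- The quotient of `gam G i`. -/
def Qgr (i : ℕ) : Type := gam G i ⧸ Nn G i

instance (i : ℕ) : Group (Qgr G i) := inferInstanceAs (Group (gam G i ⧸ Nn G i))

/-- The projection. -/
def pr (i : ℕ) : gam G i →* Qgr G i := QuotientGroup.mk' (Nn G i)

theorem pr_surj (i : ℕ) : Function.Surjective (pr G i) := QuotientGroup.mk'_surjective _

theorem pr_eq_one {i : ℕ} (x : gam G i) : pr G i x = 1 ↔ x ∈ Nn G i :=
  QuotientGroup.eq_one_iff x

theorem pr_eq {i : ℕ} (x y : gam G i) : pr G i x = pr G i y ↔ x⁻¹ * y ∈ Nn G i := by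
  rw [← pr_eq_one, map_mul, map_inv, inv_mul_eq_one]

theorem Qgr_comm (hG : GamCalc G) (i : ℕ) (a b : Qgr G i) : a * b = b * a := by
  obtain ⟨x, rfl⟩ := pr_surj G i a
  obtain ⟨y, rfl⟩ := pr_surj G i b
  rw [← map_mul, ← map_mul]
  symm
  rw [pr_eq]
  rcases Nat.eq_zero_or_pos i with h | h
  · subst h
    rw [Nn_zero]; trivial
  · rw [mem_Nn G h]
    have h1 := hG.comm i i h h (x : G)⁻¹ (inv_mem x.2) (y : G)⁻¹ (inv_mem y.2)
    have h2 : cm (x : G)⁻¹ (y : G)⁻¹ ∈ gam G (i + 1) := gam_antitone G (by omega) h1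
    have h3 : (((y * x)⁻¹ * (x * y) : gam G i) : G) = cm (x : G)⁻¹ (y : G)⁻¹ := by
      unfold cm
      push_cast
      group
    rw [h3]; exact h2

end

section

variable {G : Type} [Group G] [hG : Fact (GamCalc G)]

instance (i : ℕ) : CommGroup (Qgr G i) :=
  { (inferInstance : Group (Qgr G i)) with mul_comm := Qgr_comm G hG.out i }

theorem cm_one_left (y : G) : cm 1 y = 1 := by
  unfold cm; group

theorem cm_one_right (x : G) : cm x 1 = 1 := by
  unfold cm; group

/-- The bracket with a fixed element of `gam G i`. -/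
def B1 {i j k : ℕ} (h : i + j = k) (hi : 1 ≤ i) (hj : 1 ≤ j) (x : gam G i) : gam G j →* Qgr G k where
  toFun y := pr G k ⟨cm (x : G) (y : G), h ▸ hG.out.comm i j hi hj x x.2 y y.2⟩
  map_one' := by
    rw [pr_eq_one]
    have : (⟨cm (x : G) ((1 : gam G j) : G), h ▸ hG.out.comm i j hi hj x x.2 _ (1 : gam G j).2⟩ :
        gam G k) = 1 := by
      apply Subtype.ext
      exact cm_one_right _
    rw [this]
    exact one_mem _
  map_mul' y y' := by
    rw [← map_mul, pr_eq, mem_Nn G (by omega)]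
    have h1 := hG.out.mul_right i j hi hj x x.2 y y.2 y' y'.2
    rw [h] at h1
    exact h1

theorem B1_ker {i j k : ℕ} (h : i + j = k) (hi : 1 ≤ i) (hj : 1 ≤ j) (x : gam G i) :
    Nn G j ≤ (B1 h hi hj x).ker := by
  intro y hy
  rw [mem_Nn G hj] at hy
  rw [MonoidHom.mem_ker]
  show pr G k _ = 1
  rw [pr_eq_one, mem_Nn G (by omega)]
  have h1 := hG.out.comm i (j + 1) hi (by omega) x x.2 y hy
  have h2 : i + (j + 1) = k + 1 := by omega
  rw [h2] at h1
  exact h1

/-- The bracket with a fixed element of `gam G i`, on the quotient. -/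
def B2 {i j k : ℕ} (h : i + j = k) (hi : 1 ≤ i) (hj : 1 ≤ j) (x : gam G i) : Qgr G j →* Qgr G k :=
  QuotientGroup.lift (Nn G j) (B1 h hi hj x) (B1_ker h hi hj x)

theorem B2_pr {i j k : ℕ} (h : i + j = k) (hi : 1 ≤ i) (hj : 1 ≤ j) (x : gam G i) (y : gam G j) :
    B2 h hi hj x (pr G j y) =
      pr G k ⟨cm (x : G) (y : G), h ▸ hG.out.comm i j hi hj x x.2 y y.2⟩ := rfl

/-- The bracket. -/
def B3 {i j k : ℕ} (h : i + j = k) (hi : 1 ≤ i) (hj : 1 ≤ j) : gam G i →* (Qgr G j →* Qgr G k) where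
  toFun x := B2 h hi hj x
  map_one' := by
    ext b
    obtain ⟨y, rfl⟩ := pr_surj G j b
    rw [B2_pr, MonoidHom.one_apply, pr_eq_one]
    have : (⟨cm ((1 : gam G i) : G) (y : G), h ▸ hG.out.comm i j hi hj _ (1 : gam G i).2 y y.2⟩ :
        gam G k) = 1 := by
      apply Subtype.ext
      exact cm_one_left _
    rw [this]
    exact one_mem _
  map_mul' x x' := by
    ext b
    obtain ⟨y, rfl⟩ := pr_surj G j b
    rw [MonoidHom.mul_apply, B2_pr, B2_pr, B2_pr, ← map_mul, pr_eq, mem_Nn G (by omega)]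
    have h1 := hG.out.mul_left i j hi hj x x.2 x' x'.2 y y.2
    rw [h] at h1
    exact h1

theorem B3_ker {i j k : ℕ} (h : i + j = k) (hi : 1 ≤ i) (hj : 1 ≤ j) :
    Nn G i ≤ (B3 (G := G) h hi hj).ker := by
  intro x hx
  rw [mem_Nn G hi] at hx
  rw [MonoidHom.mem_ker]
  ext b
  obtain ⟨y, rfl⟩ := pr_surj G j b
  show B2 h hi hj x (pr G j y) = 1
  rw [B2_pr, pr_eq_one, mem_Nn G (by omega)]
  have h1 := hG.out.comm (i + 1) j (by omega) hj x hx y y.2
  have h2 : i + 1 + j = k + 1 := by omega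
  rw [h2] at h1
  exact h1

/-- The bracket on the quotients. -/
def B4 {i j k : ℕ} (h : i + j = k) (hi : 1 ≤ i) (hj : 1 ≤ j) : Qgr G i →* (Qgr G j →* Qgr G k) :=
  QuotientGroup.lift (Nn G i) (B3 h hi hj) (B3_ker h hi hj)

theorem B4_pr {i j k : ℕ} (h : i + j = k) (hi : 1 ≤ i) (hj : 1 ≤ j) (x : gam G i) (y : gam G j) :
    B4 h hi hj (pr G i x) (pr G j y) =
      pr G k ⟨cm (x : G) (y : G), h ▸ hG.out.comm i j hi hj x x.2 y y.2⟩ := rfl

/-- The graded pieces, additively. -/
def Vv (G : Type) [Group G] (i : ℕ) : Type := Additive (Qgr G i)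

instance (i : ℕ) : AddCommGroup (Vv G i) := inferInstanceAs (AddCommGroup (Additive (Qgr G i)))

/-- The projection to the graded piece. -/
def qq (i : ℕ) (x : gam G i) : Vv G i := Additive.ofMul (pr G i x)

theorem qq_mul (i : ℕ) (x y : gam G i) : qq i (x * y) = qq i x + qq i y := by
  unfold qq
  rw [map_mul]
  rfl

theorem qq_surj (i : ℕ) : Function.Surjective (qq (G := G) i) := pr_surj G i

theorem qq_zero (i : ℕ) (x : gam G i) (hi : 1 ≤ i) : qq i x = 0 ↔ (x : G) ∈ gam G (i + 1) := by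
  rw [← mem_Nn G hi, ← pr_eq_one]
  rfl

theorem qq_eq (i : ℕ) (x y : gam G i) (hi : 1 ≤ i) :
    qq i x = qq i y ↔ (x : G)⁻¹ * (y : G) ∈ gam G (i + 1) := by
  have h1 : qq i x = qq i y ↔ pr G i x = pr G i y := Iff.rfl
  rw [h1, pr_eq, mem_Nn G hi]
  rfl

theorem qq_one (i : ℕ) : qq (G := G) i 1 = 0 := by
  unfold qq
  rw [map_one]
  rfl

open Classical in
/-- The bracket, additively. -/
noncomputable def br0 {i j k : ℕ} (h : i + j = k) : Vv G i →+ Vv G j →+ Vv G k :=
  if hh : 1 ≤ i ∧ 1 ≤ j then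
    { toFun := fun x => MonoidHom.toAdditive (B4 h hh.1 hh.2 (Additive.toMul x))
      map_zero' := by
        ext b
        show Additive.ofMul (B4 h hh.1 hh.2 1 (Additive.toMul b)) = 0
        rw [map_one]
        rfl
      map_add' := by
        intro x y
        ext b
        show Additive.ofMul (B4 h hh.1 hh.2 (Additive.toMul x * Additive.toMul y)
          (Additive.toMul b)) = _
        rw [map_mul]
        rfl }
  else 0

theorem br0_qq {i j k : ℕ} (h : i + j = k) (hi : 1 ≤ i) (hj : 1 ≤ j) (x : gam G i) (y : gam G j)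
    (hm : cm (x : G) (y : G) ∈ gam G k) : br0 h (qq i x) (qq j y) = qq k ⟨_, hm⟩ := by
  unfold br0
  rw [dif_pos ⟨hi, hj⟩]
  rfl

theorem br0_zero_left {i j k : ℕ} (h : i + j = k) (hi : i = 0) (x : Vv G i) (y : Vv G j) :
    br0 h x y = 0 := by
  unfold br0
  rw [dif_neg (by omega)]
  rfl

theorem br0_zero_right {i j k : ℕ} (h : i + j = k) (hj : j = 0) (x : Vv G i) (y : Vv G j) :
    br0 h x y = 0 := by
  unfold br0
  rw [dif_neg (by omega)]
  rfl

/-- The graded Lie ring. -/
noncomputable def LL : GLie (Vv G) where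
  br := br0
  jac := by
    intro a b c ab bc ac abc hab hbc hac h1 h2 h3 x y z
    rcases Nat.eq_zero_or_pos a with ha | ha
    · rw [br0_zero_left h1 ha, br0_zero_left hab ha, map_zero, AddMonoidHom.zero_apply,
        br0_zero_left hac ha, map_zero, add_zero]
    rcases Nat.eq_zero_or_pos b with hb | hb
    · rw [br0_zero_left hbc hb, map_zero, br0_zero_right hab hb, map_zero,
        AddMonoidHom.zero_apply, br0_zero_left h3 hb, add_zero]
    rcases Nat.eq_zero_or_pos c with hc | hc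
    · rw [br0_zero_right hbc hc, map_zero, br0_zero_right h2 hc, br0_zero_right hac hc, map_zero,
        add_zero]
    obtain ⟨x, rfl⟩ := qq_surj a x
    obtain ⟨y, rfl⟩ := qq_surj b y
    obtain ⟨z, rfl⟩ := qq_surj c z
    have m1 : cm (y : G) (z : G) ∈ gam G bc := hbc ▸ hG.out.comm b c hb hc y y.2 z z.2
    have m2 : cm (x : G) (y : G) ∈ gam G ab := hab ▸ hG.out.comm a b ha hb x x.2 y y.2
    have m3 : cm (x : G) (z : G) ∈ gam G ac := hac ▸ hG.out.comm a c ha hc x x.2 z z.2
    have n1 : cm (x : G) (cm (y : G) (z : G)) ∈ gam G abc :=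
      h1 ▸ hG.out.comm a bc ha (by omega) x x.2 _ m1
    have n2 : cm (cm (x : G) (y : G)) (z : G) ∈ gam G abc :=
      h2 ▸ hG.out.comm ab c (by omega) hc _ m2 z z.2
    have n3 : cm (y : G) (cm (x : G) (z : G)) ∈ gam G abc :=
      h3 ▸ hG.out.comm b ac hb (by omega) y y.2 _ m3
    rw [br0_qq hbc hb hc y z m1, br0_qq hab ha hb x y m2, br0_qq hac ha hc x z m3,
      br0_qq h1 ha (by omega) x ⟨_, m1⟩ n1, br0_qq h2 (by omega) hc ⟨_, m2⟩ z n2,
      br0_qq h3 hb (by omega) y ⟨_, m3⟩ n3, ← qq_mul, qq_eq _ _ _ (by omega)]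
    have h4 := hG.out.jacobi a b c ha hb hc x x.2 y y.2 z z.2
    have h5 : a + b + c = abc := by omega
    rw [h5] at h4
    exact h4
  gen := by
    intro i k h hi
    rw [eq_top_iff]
    rintro w -
    obtain ⟨⟨g, hg⟩, rfl⟩ := qq_surj k w
    have hg2 : g ∈ Subgroup.closure {z | ∃ x : G, ∃ y ∈ gam G i, z = cm x y} := by
      rw [← hG.out.gen i hi, show i + 1 = k by omega]
      exact hg
    have hle : Subgroup.closure {z | ∃ x : G, ∃ y ∈ gam G i, z = cm x y} ≤ gam G k := by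
      rw [← hG.out.gen i hi, show i + 1 = k by omega]
    revert hg
    refine Subgroup.closure_induction (p := fun g _ => ∀ hg : g ∈ gam G k,
      qq k ⟨g, hg⟩ ∈ AddSubgroup.closure {w : Vv G k | ∃ (x : Vv G 1) (y : Vv G i),
        br0 h x y = w}) ?_ ?_ ?_ ?_ hg2
    · rintro z ⟨x, y, hy, rfl⟩ hz
      apply AddSubgroup.subset_closure
      exact ⟨qq 1 ⟨x, trivial⟩, qq i ⟨y, hy⟩, br0_qq h le_rfl hi ⟨x, trivial⟩ ⟨y, hy⟩ hz⟩
    · intro h1
      have : (⟨1, h1⟩ : gam G k) = 1 := rfl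
      rw [this, qq_one]
      exact zero_mem _
    · intro a b ha hb iha ihb hab
      have : (⟨a * b, hab⟩ : gam G k) = ⟨a, hle ha⟩ * ⟨b, hle hb⟩ := rfl
      rw [this, qq_mul]
      exact add_mem (iha _) (ihb _)
    · intro a ha iha hainv
      have e : qq k ⟨a⁻¹, hainv⟩ = - qq k ⟨a, hle ha⟩ := by
        rw [eq_neg_iff_add_eq_zero, ← qq_mul]
        have : (⟨a⁻¹, hainv⟩ * ⟨a, hle ha⟩ : gam G k) = 1 := by
          apply Subtype.ext
          exact inv_mul_cancel a
        rw [this, qq_one]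
      rw [e]
      exact neg_mem (iha _)

end

theorem grData (G : Type) [Group G] (hG : GamCalc G) : Nonempty (GrData G) := by
  have : Fact (GamCalc G) := ⟨hG⟩
  exact ⟨{ V := Vv G
           inst := fun i => inferInstance
           L := LL
           q := qq
           q_mul := qq_mul
           q_surj := qq_surj
           q_zero := qq_zero
           br_q := fun h hi hj x y hm => br0_qq h hi hj x y hm }⟩

end Pool.Agent.Helper19.BE
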